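import Pool.Agent.H38.PS.Targets

/-! # LP: the triples for which the radical divided by one prime is small -/

set_option autoImplicit false

open Pool.Agent.H38.RB Pool.Agent.H38.PS

namespace Pool.Agent.H13.PS

lemma union_card {ι α : Type} (F : Finset ι) (S : ι → Set α) (b : ι → ℝ)
    (h : ∀ t ∈ F, (S t).Finite ∧ ((S t).ncard : ℝ) ≤ b t) :
    (⋃ t ∈ F, S t).Finite ∧ ((⋃ t ∈ F, S t).ncard : ℝ) ≤ ∑ t ∈ F, b t := by
  classical
  induction F using Finset.induction_on with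
  | empty => simp
  | insert a s ha ih =>
    obtain ⟨h1, h2⟩ := ih fun t ht => h t (Finset.mem_insert_of_mem ht)
    obtain ⟨h3, h4⟩ := h a (Finset.mem_insert_self a s)
    rw [Finset.set_biUnion_insert, Finset.sum_insert ha]
    refine ⟨h3.union h1, ?_⟩
    have h5 : (((S a ∪ ⋃ t ∈ s, S t).ncard : ℕ) : ℝ) ≤ (S a).ncard + (⋃ t ∈ s, S t).ncard := by
      exact_mod_cast Set.ncard_union_le _ _
    linarith

lemma adm_pr {x : Fin 3 → ℤ} (hx : Adm x) : pr x ≠ 0 := by
  unfold pr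
  rw [Int.natAbs_ne_zero]
  exact mul_ne_zero (mul_ne_zero (hx.1 0) (hx.1 1)) (hx.1 2)

lemma one_le_ht {x : Fin 3 → ℤ} (hx : Adm x) : 1 ≤ ht x :=
  (Int.natAbs_pos.2 (hx.1 0)).trans_le (le_max_left _ _)

lemma pr_le (x : Fin 3 → ℤ) : pr x ≤ ht x ^ 3 := by
  unfold pr
  rw [Int.natAbs_mul, Int.natAbs_mul]
  have h0 : (x 0).natAbs ≤ ht x := le_max_left _ _
  have h1 : (x 1).natAbs ≤ ht x := (le_max_left _ _).trans (le_max_right _ _)
  have h2 : (x 2).natAbs ≤ ht x := (le_max_right _ _).trans (le_max_right _ _)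
  calc _ ≤ ht x * ht x * ht x := Nat.mul_le_mul (Nat.mul_le_mul h0 h1) h2
    _ = _ := by ring

lemma mem_sol {x : Fin 3 → ℤ} (hx : Adm x) : x ∈ Sol 0 (pr x).primeFactors := by
  refine ⟨hx, ?_⟩
  have h : tp (pr x).primeFactors (pr x) = pr x := by
    unfold tp
    exact Nat.prod_factorization_pow_eq_self (adm_pr hx)
  rw [Real.rpow_zero, one_mul, h]

lemma sq_pd {S : Finset ℕ} (hS : ∀ p ∈ S, p.Prime) : Squarefree (pd S) := by
  unfold pd
  refine Finset.squarefree_prod_of_pairwise_isCoprime (fun p hp q hq hpq => ?_)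
    fun p hp => (hS p hp).squarefree
  exact Nat.coprime_iff_isRelPrime.1 ((Nat.coprime_primes (hS p hp) (hS q hq)).2 hpq)

lemma pf_pd {S : Finset ℕ} (hS : ∀ p ∈ S, p.Prime) : (pd S).primeFactors = S :=
  Nat.primeFactors_prod hS

lemma pd_pos {S : Finset ℕ} (hS : ∀ p ∈ S, p.Prime) : 1 ≤ pd S :=
  Nat.one_le_iff_ne_zero.2 (Finset.prod_ne_zero_iff.2 fun p hp => (hS p hp).ne_zero)

lemma mem_sq {S : Finset ℕ} (hS : ∀ p ∈ S, p.Prime) {X : ℝ} (h : (pd S : ℝ) ≤ X) :
    pd S ∈ Pool.Agent.H38.RB.sq X := by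
  unfold Pool.Agent.H38.RB.sq
  rw [Finset.mem_filter, Finset.mem_Icc]
  exact ⟨⟨pd_pos hS, Nat.le_floor h⟩, sq_pd hS⟩

/-- the exponent is bounded -/
lemma exp_le {x : Fin 3 → ℤ} (hx : Adm x) {p : ℕ} (hp : p ∈ (pr x).primeFactors) :
    ((pr x).factorization p : ℝ) ≤ 5 * Real.log (ht x) := by
  have hpp := Nat.prime_of_mem_primeFactors hp
  have h1 : 2 ^ (pr x).factorization p ≤ ht x ^ 3 :=
    ((Nat.pow_le_pow_left hpp.two_le _).trans
      (Nat.le_of_dvd (Nat.pos_of_ne_zero (adm_pr hx)) (Nat.ordProj_dvd _ _))).trans (pr_le x)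
  have h2 : ((2 : ℝ) ^ (pr x).factorization p) ≤ (ht x : ℝ) ^ 3 := by exact_mod_cast h1
  have h3 := Real.log_le_log (by positivity) h2
  rw [Real.log_pow, Real.log_pow] at h3
  have h4 := Real.log_two_gt_d9
  have h5 : (0 : ℝ) ≤ ((pr x).factorization p : ℝ) := Nat.cast_nonneg _
  have h6 : 0 ≤ Real.log (ht x) := Real.log_nonneg (by exact_mod_cast one_le_ht hx)
  push_cast at h3
  nlinarith

/-- the triples with the prime `p` in `fam` -/
lemma fam_bound {C1 : ℝ} (hQ1 : ∀ T : Finset ℕ, (∀ p ∈ T, p.Prime) →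
    (Sol 0 T).Finite ∧ ((Sol 0 T).ncard : ℝ) ≤ C1 ^ (T.card + 1)) (hC1 : 1 ≤ C1)
    {X h b : ℝ} {S : Finset ℕ} {n : ℕ} (hS : ∀ p ∈ S, p.Prime)
    (hf : (fam X S n h).Finite ∧ ((fam X S n h).ncard : ℝ) ≤ b) :
    (⋃ p ∈ fam X S n h, Sol 0 (insert p S)).Finite ∧
      ((⋃ p ∈ fam X S n h, Sol 0 (insert p S)).ncard : ℝ) ≤ b * C1 ^ (S.card + 2) := by
  obtain ⟨hfin, hb⟩ := hf
  have h1 : (⋃ p ∈ fam X S n h, Sol 0 (insert p S)) =
      ⋃ p ∈ hfin.toFinset, Sol 0 (insert p S) := by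
    ext x
    simp only [Set.mem_iUnion, Set.Finite.mem_toFinset]
  have h2 := union_card hfin.toFinset (fun p => Sol 0 (insert p S))
    (fun _ => C1 ^ (S.card + 2)) (fun p hp => by
      rw [Set.Finite.mem_toFinset] at hp
      have hpr : ∀ q ∈ insert p S, q.Prime := by
        intro q hq
        rcases Finset.mem_insert.1 hq with rfl | hq
        · exact hp.1
        · exact hS q hq
      have := hQ1 (insert p S) hpr
      rwa [Finset.card_insert_of_notMem hp.2.1] at this)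
  rw [h1]
  refine ⟨h2.1, h2.2.trans ?_⟩
  rw [Finset.sum_const, nsmul_eq_mul, ← Set.ncard_eq_toFinset_card _ hfin]
  exact mul_le_mul_of_nonneg_right hb (by positivity)

theorem pf_LP (hLPC : T_LPC) (hQR : T_QR) (hCOME : T_COME) : T_LP := by
  intro ε hε
  set γ : ℝ := ε / 4 with hγdef
  have hγ : 0 < γ := by positivity
  obtain ⟨A, X₀, hA, hX₀, hfam⟩ := hLPC γ hγ
  obtain ⟨C1, hC1, hQ1⟩ := hQR 0 one_pos
  obtain ⟨Cc, hCc, hcom⟩ := hCOME C1 γ hC1 hγ
  set N₀ : ℕ := (⋃ t ∈ Pool.Agent.H38.RB.sq X₀, Sol 0 t.primeFactors).ncard with hN₀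
  set C : ℝ := N₀ + 5 * C1 ^ 2 * Cc * (2 / γ + 2) + 1 with hC
  have hC0 : 0 ≤ 5 * C1 ^ 2 * Cc * (2 / γ + 2) := by positivity
  refine ⟨2 * A, C, by linarith, by positivity, ?_⟩
  intro X Y Z hX hY hZ hZX
  have hX0 : 0 < X := by linarith
  have hXε : 1 ≤ X ^ ε := Real.one_le_rpow (by linarith) hε.le
  have hprime : ∀ t : ℕ, ∀ p ∈ t.primeFactors, p.Prime :=
    fun t p hp => Nat.prime_of_mem_primeFactors hp
  have hYZ : 1 ≤ Y * Z := one_le_mul_of_one_le_of_one_le hY hZ
  have hYZε : 1 ≤ Y * Z * X ^ ε := one_le_mul_of_one_le_of_one_le hYZ hXε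
  by_cases hXX : X < X₀
  · -- small `X`
    obtain ⟨hU, -⟩ := union_card (Pool.Agent.H38.RB.sq X₀) (fun t => Sol 0 t.primeFactors)
      (fun t => C1 ^ (t.primeFactors.card + 1)) fun t _ => hQ1 _ (hprime t)
    have hsub : {x | Adm x ∧ (pd (pr x).primeFactors : ℝ) ≤ X ∧
        2 * A * Real.log X ≤ Real.log (ht x) ∧ Real.log (ht x) ≤ Z ∧
        ∃ p ∈ (pr x).primeFactors, (pd (pr x).primeFactors : ℝ) ≤ Y * p} ⊆
        ⋃ t ∈ Pool.Agent.H38.RB.sq X₀, Sol 0 t.primeFactors := by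
      rintro x ⟨hx, hxX, -⟩
      rw [Set.mem_iUnion₂]
      refine ⟨pd (pr x).primeFactors, mem_sq (hprime _) (hxX.trans hXX.le), ?_⟩
      rw [pf_pd (hprime _)]
      exact mem_sol hx
    refine ⟨hU.subset hsub, ?_⟩
    have h1 : (({x | Adm x ∧ (pd (pr x).primeFactors : ℝ) ≤ X ∧
        2 * A * Real.log X ≤ Real.log (ht x) ∧ Real.log (ht x) ≤ Z ∧
        ∃ p ∈ (pr x).primeFactors, (pd (pr x).primeFactors : ℝ) ≤ Y * p}.ncard : ℕ) : ℝ) ≤ N₀ := by
      exact_mod_cast Set.ncard_le_ncard hsub hU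
    have h2 : (N₀ : ℝ) ≤ C := by
      rw [hC]
      linarith
    have h3 : C ≤ C * (Y * Z * X ^ ε) :=
      le_mul_of_one_le_right ((Nat.cast_nonneg _).trans h2) hYZε
    calc _ ≤ C * (Y * Z * X ^ ε) := h1.trans (h2.trans h3)
      _ = _ := by ring
  · -- large `X`
    rw [not_lt] at hXX
    have hlog2 := Real.log_two_gt_d9
    have hlogX : Real.log 2 ≤ Real.log X := Real.log_le_log (by norm_num) hX
    set h₀ : ℝ := 2 * A * Real.log X with hh₀
    have hh1 : 1 ≤ h₀ := by nlinarith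
    have hAh : A * Real.log X ≤ h₀ := by nlinarith
    set K : ℕ := ⌊2 * Real.log X⌋₊ + 1 with hK
    set N : ℕ := ⌊5 * Z⌋₊ with hN
    set J : Finset ℕ := (Finset.range K).filter (fun j : ℕ => 2 ^ j * h₀ ≤ X) with hJ
    set Y' : ℝ := min Y X with hY'
    have hY'1 : 1 ≤ Y' := le_min hY (by linarith)
    set F : Finset (ℕ × ℕ × ℕ) := Pool.Agent.H38.RB.sq Y' ×ˢ (J ×ˢ Finset.Icc 1 N) with hF
    obtain ⟨hU, hUc⟩ := union_card F (fun i => ⋃ p ∈ fam X i.1.primeFactors i.2.2 (2 ^ i.2.1 * h₀),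
        Sol 0 (insert p i.1.primeFactors))
      (fun i => X ^ γ * C1 ^ (i.1.primeFactors.card + 2)) (by
        rintro ⟨s, j, n⟩ hi
        rw [hF, Finset.mem_product, Finset.mem_product, hJ, Finset.mem_filter, Finset.mem_Icc] at hi
        obtain ⟨hs, ⟨-, hj⟩, hn⟩ := hi
        unfold Pool.Agent.H38.RB.sq at hs
        rw [Finset.mem_filter, Finset.mem_Icc] at hs
        have hsX : (s : ℝ) ≤ X := ((Nat.le_floor_iff' (by have := hs.1.1; omega)).1 hs.1.2).trans
          (min_le_right _ _)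
        have h2 : (1 : ℝ) ≤ 2 ^ j := one_le_pow₀ (by norm_num)
        refine fam_bound hQ1 hC1 (hprime s) (hfam X (2 ^ j * h₀) s.primeFactors n hXX
          (hAh.trans (le_mul_of_one_le_left (by linarith) h2)) hj (hprime s) ?_ ?_)
        · have h3 : pd s.primeFactors ≤ s :=
            Nat.le_of_dvd (by have := hs.1.1; omega) (Nat.prod_primeFactors_dvd s)
          have h4 : ((pd s.primeFactors : ℕ) : ℝ) ≤ s := by exact_mod_cast h3
          linarith
        · have := hn.1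
          simp only at this
          omega)
    have hsub : {x | Adm x ∧ (pd (pr x).primeFactors : ℝ) ≤ X ∧
        2 * A * Real.log X ≤ Real.log (ht x) ∧ Real.log (ht x) ≤ Z ∧
        ∃ p ∈ (pr x).primeFactors, (pd (pr x).primeFactors : ℝ) ≤ Y * p} ⊆
        ⋃ i ∈ F, ⋃ p ∈ fam X i.1.primeFactors i.2.2 (2 ^ i.2.1 * h₀),
          Sol 0 (insert p i.1.primeFactors) := by
      rintro x ⟨hx, hxX, hxh, hxZ, p, hp, hpY⟩
      have hpp := Nat.prime_of_mem_primeFactors hp
      set S : Finset ℕ := (pr x).primeFactors.erase p with hS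
      have hSp : ∀ q ∈ S, q.Prime := fun q hq =>
        Nat.prime_of_mem_primeFactors (Finset.mem_of_mem_erase hq)
      have hins : insert p S = (pr x).primeFactors := Finset.insert_erase hp
      have hpS : p ∉ S := Finset.notMem_erase _ _
      have hpd : pd (pr x).primeFactors = p * pd S := by
        rw [← hins]
        exact Finset.prod_insert hpS
      have hpf : (pd S).primeFactors = S := pf_pd hSp
      have hp1 : (1 : ℝ) ≤ p := by exact_mod_cast hpp.one_lt.le
      have hs1 : (1 : ℝ) ≤ pd S := by exact_mod_cast pd_pos hSp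
      rw [hpd] at hxX hpY
      push_cast at hxX hpY
      have hsY : (pd S : ℝ) ≤ Y := by
        by_contra hcon
        rw [not_le] at hcon
        nlinarith
      have hsX : (pd S : ℝ) ≤ X := by nlinarith
      have hpX : (p : ℝ) ≤ X := by nlinarith
      obtain ⟨j, hj1, hj2⟩ := exists_nat_pow_near (x := Real.log (ht x) / h₀) (y := 2)
        ((one_le_div (by linarith)).2 hxh) (by norm_num)
      rw [le_div_iff₀ (by linarith)] at hj1
      rw [div_lt_iff₀ (by linarith)] at hj2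
      have hjX : (2 : ℝ) ^ j * h₀ ≤ X := by linarith
      have hjK : j < K := by
        have h1 : (2 : ℝ) ^ j ≤ X := by
          have h0 : (0 : ℝ) ≤ 2 ^ j := by positivity
          nlinarith
        have h2 := Real.log_le_log (by positivity) h1
        rw [Real.log_pow] at h2
        have h3 : (0 : ℝ) ≤ j := Nat.cast_nonneg _
        have h4 : (j : ℝ) ≤ 2 * Real.log X := by nlinarith
        rw [hK]
        exact Nat.lt_succ_of_le (Nat.le_floor h4)
      have hn0 : (pr x).factorization p ≠ 0 := by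
        rw [← Finsupp.mem_support_iff, Nat.support_factorization]
        exact hp
      have hnN : (pr x).factorization p ≤ N := by
        refine Nat.le_floor ?_
        have := exp_le hx hp
        linarith
      rw [Set.mem_iUnion₂]
      refine ⟨(pd S, j, (pr x).factorization p), ?_, ?_⟩
      · rw [hF, Finset.mem_product, Finset.mem_product, hJ, Finset.mem_filter, Finset.mem_Icc,
          Finset.mem_range]
        exact ⟨mem_sq hSp (le_min hsY hsX), ⟨hjK, hjX⟩, Nat.one_le_iff_ne_zero.2 hn0, hnN⟩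
      · simp only
        rw [hpf, Set.mem_iUnion₂]
        refine ⟨p, ⟨hpp, hpS, hpX, x, hx, hins.symm, rfl, hj1, ?_⟩, ?_⟩
        · rw [pow_succ] at hj2
          linarith
        · rw [hins]
          exact mem_sol hx
    refine ⟨hU.subset hsub, ?_⟩
    have h1 : (({x | Adm x ∧ (pd (pr x).primeFactors : ℝ) ≤ X ∧
        2 * A * Real.log X ≤ Real.log (ht x) ∧ Real.log (ht x) ≤ Z ∧
        ∃ p ∈ (pr x).primeFactors, (pd (pr x).primeFactors : ℝ) ≤ Y * p}.ncard : ℕ) : ℝ) ≤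
        ((⋃ i ∈ F, ⋃ p ∈ fam X i.1.primeFactors i.2.2 (2 ^ i.2.1 * h₀),
          Sol 0 (insert p i.1.primeFactors)).ncard : ℝ) := by
      exact_mod_cast Set.ncard_le_ncard hsub hU
    have hsum : ∑ i ∈ F, X ^ γ * C1 ^ (i.1.primeFactors.card + 2) =
        (J.card : ℝ) * N * X ^ γ * C1 ^ 2 *
          ∑ s ∈ Pool.Agent.H38.RB.sq Y', C1 ^ s.primeFactors.card := by
      rw [hF, Finset.sum_product, Finset.mul_sum]
      refine Finset.sum_congr rfl fun s _ => ?_
      simp only [Finset.sum_const, Finset.card_product, Nat.card_Icc, nsmul_eq_mul,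
        Nat.add_sub_cancel, Nat.cast_mul]
      ring
    have hJc : (J.card : ℝ) ≤ (2 / γ + 2) * X ^ γ := by
      have h2 : J.card ≤ K := (Finset.card_filter_le _ _).trans (Finset.card_range K).le
      have h3 : (J.card : ℝ) ≤ K := by exact_mod_cast h2
      have h4 : (K : ℝ) ≤ 2 * Real.log X + 1 := by
        rw [hK]
        push_cast
        have := Nat.floor_le (show 0 ≤ 2 * Real.log X by linarith)
        linarith
      have h5 := Real.log_le_rpow_div hX0.le hγ
      have h6 : 1 ≤ X ^ γ := Real.one_le_rpow (by linarith) hγ.le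
      have h7 : 2 * Real.log X ≤ 2 / γ * X ^ γ := by
        calc 2 * Real.log X ≤ 2 * (X ^ γ / γ) := by linarith
          _ = _ := by ring
      nlinarith
    have hNc : (N : ℝ) ≤ 5 * Z := Nat.floor_le (by linarith)
    have hYc : Y' ^ (1 + γ) ≤ Y * X ^ γ := by
      rw [Real.rpow_add (by linarith), Real.rpow_one]
      exact mul_le_mul (min_le_left _ _) (Real.rpow_le_rpow (by linarith) (min_le_right _ _) hγ.le)
        (by positivity) (by linarith)
    have hXγ : X ^ γ * X ^ γ * X ^ γ ≤ X ^ ε := by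
      rw [← Real.rpow_add hX0, ← Real.rpow_add hX0]
      exact Real.rpow_le_rpow_of_exponent_le (by linarith) (by rw [hγdef]; linarith)
    have hXγ0 : 0 < X ^ γ := Real.rpow_pos_of_pos hX0 _
    have hs2 := hcom Y' (by linarith)
    calc _ ≤ _ := h1
      _ ≤ _ := hUc
      _ = _ := hsum
      _ ≤ ((2 / γ + 2) * X ^ γ) * (5 * Z) * X ^ γ * C1 ^ 2 * (Cc * (Y * X ^ γ)) := by
          have h8 : ∑ s ∈ Pool.Agent.H38.RB.sq Y', C1 ^ s.primeFactors.card ≤ Cc * (Y * X ^ γ) :=
            hs2.trans (mul_le_mul_of_nonneg_left hYc hCc.le)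
          have h9 : (J.card : ℝ) * N ≤ ((2 / γ + 2) * X ^ γ) * (5 * Z) :=
            mul_le_mul hJc hNc (Nat.cast_nonneg _) (by positivity)
          refine mul_le_mul ?_ h8 (Finset.sum_nonneg fun _ _ => by positivity) (by positivity)
          exact mul_le_mul_of_nonneg_right (mul_le_mul_of_nonneg_right h9 hXγ0.le) (by positivity)
      _ = 5 * C1 ^ 2 * Cc * (2 / γ + 2) * (Y * Z) * (X ^ γ * X ^ γ * X ^ γ) := by ring
      _ ≤ 5 * C1 ^ 2 * Cc * (2 / γ + 2) * (Y * Z) * X ^ ε :=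
          mul_le_mul_of_nonneg_left hXγ (by positivity)
      _ ≤ C * (Y * Z) * X ^ ε := by
          refine mul_le_mul_of_nonneg_right (mul_le_mul_of_nonneg_right ?_ (by linarith))
            (by linarith)
          rw [hC]
          have : (0 : ℝ) ≤ N₀ := Nat.cast_nonneg _
          linarith
      _ = _ := by ring

end Pool.Agent.H13.PS
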