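import Pool.Agent.H38.PS.Targets2
import Pool.Agent.H13.PS.LP

/-! # LP2: the triples of `Two` of moderate height -/

set_option autoImplicit false

open Pool.Agent.H38.RB Pool.Agent.H38.PS

namespace Pool.Agent.H13.PS

lemma pr_perm (x : Fin 3 → ℤ) {a b c : Fin 3} (hab : a ≠ b) (hac : a ≠ c) (hbc : b ≠ c) :
    pr x = (x a).natAbs * (x b).natAbs * (x c).natAbs := by
  unfold pr
  rw [Int.natAbs_mul, Int.natAbs_mul]
  fin_cases a <;> fin_cases b <;> fin_cases c <;>
    first
    | exact absurd rfl hab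
    | exact absurd rfl hac
    | exact absurd rfl hbc
    | (simp only [Fin.zero_eta, Fin.mk_one, Fin.reduceFinMk] <;> ring)

lemma third : ∀ a b : Fin 3, ∃ c, a ≠ c ∧ b ≠ c := by decide

lemma adm_cop {x : Fin 3 → ℤ} (hx : Adm x) {a b : Fin 3} (h : a ≠ b) :
    Nat.Coprime (x a).natAbs (x b).natAbs := Int.isCoprime_iff_gcd_eq_one.1 (hx.2.1 a b h)

lemma adm_ne {x : Fin 3 → ℤ} (hx : Adm x) (a : Fin 3) : (x a).natAbs ≠ 0 :=
  Int.natAbs_ne_zero.2 (hx.1 a)

lemma le_ht (x : Fin 3 → ℤ) (a : Fin 3) : (x a).natAbs ≤ ht x := by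
  have h0 : (x 0).natAbs ≤ ht x := le_max_left _ _
  have h1 : (x 1).natAbs ≤ ht x := (le_max_left _ _).trans (le_max_right _ _)
  have h2 : (x 2).natAbs ≤ ht x := (le_max_right _ _).trans (le_max_right _ _)
  fin_cases a
  exacts [h0, h1, h2]

lemma pf_perm {x : Fin 3 → ℤ} (hx : Adm x) {a b c : Fin 3} (hab : a ≠ b) (hac : a ≠ c)
    (hbc : b ≠ c) : (pr x).primeFactors =
      (x a).natAbs.primeFactors ∪ (x b).natAbs.primeFactors ∪ (x c).natAbs.primeFactors := by
  rw [pr_perm x hab hac hbc, Nat.primeFactors_mul (mul_ne_zero (adm_ne hx a) (adm_ne hx b))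
    (adm_ne hx c), Nat.primeFactors_mul (adm_ne hx a) (adm_ne hx b)]

lemma fac_perm {x : Fin 3 → ℤ} (hx : Adm x) {a b c : Fin 3} (hab : a ≠ b) (hac : a ≠ c)
    (hbc : b ≠ c) (q : ℕ) : (pr x).factorization q = (x a).natAbs.factorization q +
      (x b).natAbs.factorization q + (x c).natAbs.factorization q := by
  rw [pr_perm x hab hac hbc, Nat.factorization_mul (mul_ne_zero (adm_ne hx a) (adm_ne hx b))
    (adm_ne hx c), Nat.factorization_mul (adm_ne hx a) (adm_ne hx b)]
  rfl

lemma tp_self {m : ℕ} (hm : m ≠ 0) : tp m.primeFactors m = m := by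
  unfold tp
  exact Nat.prod_factorization_pow_eq_self hm

lemma tp_union {S T : Finset ℕ} (h : Disjoint S T) (m : ℕ) : tp (S ∪ T) m = tp S m * tp T m := by
  classical
  exact Finset.prod_union h

lemma tp_pos {S : Finset ℕ} (hS : ∀ q ∈ S, q.Prime) (m : ℕ) : 0 < tp S m :=
  Finset.prod_pos fun q hq => pow_pos (hS q hq).pos _

lemma fac_zero {m q : ℕ} (h : q ∉ m.primeFactors) : m.factorization q = 0 := by
  rwa [← Finsupp.notMem_support_iff, Nat.support_factorization]

/-- `tp` does not see primes outside the prime factors -/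
lemma tp_congr {S T : Finset ℕ} {m : ℕ} (hTS : T ⊆ S) (h : ∀ q ∈ S, q ∉ T → q ∉ m.primeFactors) :
    tp S m = tp T m := by
  unfold tp
  exact (Finset.prod_subset hTS fun q hq hqT => by rw [fac_zero (h q hq hqT), pow_zero]).symm

/-- the data for an element of `Two` -/
lemma two_data {X Y δ : ℝ} {x : Fin 3 → ℤ} (hx : x ∈ Two X Y δ) :
    ∃ (a b c : Fin 3) (p : ℕ) (S : Finset ℕ), a ≠ b ∧ a ≠ c ∧ b ≠ c ∧ p.Prime ∧ p ∉ S ∧
      (∀ q ∈ S, q.Prime) ∧ (pd S : ℝ) ≤ Y ∧ (pd S : ℝ) ≤ X ∧ (p : ℝ) ≤ X ∧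
      p ∈ (x b).natAbs.primeFactors ∧
      (x c).natAbs.primeFactors ⊆ S ∧ (x b).natAbs.primeFactors ⊆ insert p S ∧
      δ * Real.log (ht x) ≤ Real.log (tp S (x a).natAbs) ∧ x ∈ Sol (1 - δ) (insert p S) := by
  classical
  obtain ⟨hadm, hrX, a, b, p, E, hab, hp, hE, hlog, hpd⟩ := hx
  obtain ⟨c, hac, hbc⟩ := third a b
  have hpp := Nat.prime_of_mem_primeFactors hp
  have hdab := (adm_cop hadm hab).disjoint_primeFactors
  have hdac := (adm_cop hadm hac).disjoint_primeFactors
  have hdbc := (adm_cop hadm hbc).disjoint_primeFactors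
  have hpf := pf_perm hadm hab hac hbc
  have hpE : p ∉ E := fun h => Finset.disjoint_left.1 hdab (hE h) hp
  set S : Finset ℕ := (pr x).primeFactors \ insert p E with hS
  have hSp : ∀ q ∈ S, q.Prime := fun q hq =>
    Nat.prime_of_mem_primeFactors (Finset.mem_sdiff.1 hq).1
  have hpS : p ∉ S := fun h => (Finset.mem_sdiff.1 h).2 (Finset.mem_insert_self _ _)
  have hEp : ∀ q ∈ E, q.Prime := fun q hq => Nat.prime_of_mem_primeFactors (hE hq)
  have hsub : insert p E ⊆ (pr x).primeFactors := by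
    intro q hq
    rw [hpf, Finset.mem_union, Finset.mem_union]
    rcases Finset.mem_insert.1 hq with rfl | hq
    · exact Or.inl (Or.inr hp)
    · exact Or.inl (Or.inl (hE hq))
  have hpfe : (pr x).primeFactors = E ∪ insert p S := by
    rw [← Finset.union_sdiff_of_subset hsub, ← hS]
    ext q
    simp only [Finset.mem_union, Finset.mem_insert]
    tauto
  have hdis : Disjoint E (insert p S) := by
    rw [Finset.disjoint_left]
    intro q hq hq'
    rcases Finset.mem_insert.1 hq' with rfl | hq'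
    · exact hpE hq
    · exact (Finset.mem_sdiff.1 hq').2 (Finset.mem_insert_of_mem hq)
  have hpdm : pd (pr x).primeFactors = p * pd E * pd S := by
    rw [hpfe]
    unfold pd
    rw [Finset.prod_union hdis, Finset.prod_insert hpS]
    ring
  have hp1 : (1 : ℝ) ≤ p := by exact_mod_cast hpp.one_lt.le
  have hE1 : (1 : ℝ) ≤ pd E := by exact_mod_cast pd_pos hEp
  have hS1 : (1 : ℝ) ≤ pd S := by exact_mod_cast pd_pos hSp
  rw [hpdm] at hrX hpd
  push_cast at hrX hpd
  have hpE1 : (1 : ℝ) ≤ p * pd E := one_le_mul_of_one_le_of_one_le hp1 hE1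
  have hSY : (pd S : ℝ) ≤ Y := by
    by_contra hcon
    rw [not_le] at hcon
    have : Y * (p * pd E) < pd S * (p * pd E) := mul_lt_mul_of_pos_right hcon (by linarith)
    nlinarith
  have hSX : (pd S : ℝ) ≤ X := by
    have : (pd S : ℝ) ≤ p * pd E * pd S := le_mul_of_one_le_left (by linarith) hpE1
    linarith
  have hpX : (p : ℝ) ≤ X := by
    have h1 : (p : ℝ) ≤ p * pd E := le_mul_of_one_le_right (by linarith) hE1
    have h2 : (p * pd E : ℝ) ≤ p * pd E * pd S := le_mul_of_one_le_right (by linarith) hS1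
    linarith
  have hcS : (x c).natAbs.primeFactors ⊆ S := by
    intro q hq
    rw [hS, Finset.mem_sdiff, Finset.mem_insert, hpf, Finset.mem_union]
    refine ⟨Or.inr hq, ?_⟩
    rintro (rfl | h)
    · exact Finset.disjoint_left.1 hdbc hp hq
    · exact Finset.disjoint_left.1 hdac (hE h) hq
  have hbS : (x b).natAbs.primeFactors ⊆ insert p S := by
    intro q hq
    rw [Finset.mem_insert]
    by_cases hqp : q = p
    · exact Or.inl hqp
    · right
      rw [hS, Finset.mem_sdiff, Finset.mem_insert, hpf, Finset.mem_union, Finset.mem_union]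
      refine ⟨Or.inl (Or.inr hq), ?_⟩
      rintro (h | h)
      · exact hqp h
      · exact Finset.disjoint_left.1 hdab (hE h) hq
  -- the entry `x a`
  have htpS : tp S (x a).natAbs = tp ((x a).natAbs.primeFactors \ E) (x a).natAbs := by
    refine tp_congr ?_ ?_
    · intro q hq
      rw [Finset.mem_sdiff] at hq
      rw [hS, Finset.mem_sdiff, Finset.mem_insert, hpf, Finset.mem_union, Finset.mem_union]
      refine ⟨Or.inl (Or.inl hq.1), ?_⟩
      rintro (rfl | h)
      · exact Finset.disjoint_left.1 hdab hq.1 hp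
      · exact hq.2 h
    · intro q hq hq' h
      apply hq'
      rw [Finset.mem_sdiff]
      refine ⟨h, fun h' => ?_⟩
      exact (Finset.mem_sdiff.1 hq).2 (Finset.mem_insert_of_mem h')
  have hxa : (x a).natAbs = tp E (x a).natAbs * tp S (x a).natAbs := by
    rw [htpS, ← tp_union Finset.disjoint_sdiff, Finset.union_sdiff_of_subset hE,
      tp_self (adm_ne hadm a)]
  have htE := tp_pos hEp (x a).natAbs
  have htS := tp_pos hSp (x a).natAbs
  have hlog2 : Real.log ((x a).natAbs : ℝ) =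
      Real.log (tp E (x a).natAbs) + Real.log (tp S (x a).natAbs) := by
    rw [← Real.log_mul (by exact_mod_cast htE.ne') (by exact_mod_cast htS.ne')]
    exact_mod_cast congrArg (fun n : ℕ => Real.log (n : ℝ)) hxa
  have hH1 : (1 : ℝ) ≤ ht x := by exact_mod_cast one_le_ht hadm
  have hH0 : (0 : ℝ) < ht x := by linarith
  refine ⟨a, b, c, p, S, hab, hac, hbc, hpp, hpS, hSp, hSY, hSX, hpX, hp, hcS, hbS, by linarith,
    hadm, ?_⟩
  have h1 : pr x = tp E (pr x) * tp (insert p S) (pr x) := by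
    rw [← tp_union hdis, ← hpfe, tp_self (adm_pr hadm)]
  have h2 : tp E (pr x) = tp E (x a).natAbs := by
    unfold tp
    refine Finset.prod_congr rfl fun q hq => ?_
    rw [fac_perm hadm hab hac hbc, fac_zero (Finset.disjoint_left.1 hdab (hE hq)),
      fac_zero (Finset.disjoint_left.1 hdac (hE hq)), add_zero, add_zero]
  have h3 : (tp E (x a).natAbs : ℝ) ≤ (ht x : ℝ) ^ (1 - δ) := by
    rw [← Real.log_le_log_iff (by exact_mod_cast htE) (Real.rpow_pos_of_pos hH0 _),
      Real.log_rpow hH0]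
    have h4 : Real.log ((x a).natAbs : ℝ) ≤ Real.log (ht x) :=
      Real.log_le_log (by exact_mod_cast Nat.pos_of_ne_zero (adm_ne hadm a))
        (by exact_mod_cast le_ht x a)
    linarith
  calc (pr x : ℝ) = (tp E (pr x) : ℝ) * (tp (insert p S) (pr x) : ℝ) := by exact_mod_cast h1
    _ ≤ _ := by
      rw [h2]
      exact mul_le_mul_of_nonneg_right h3 (Nat.cast_nonneg _)

/-- the triples with the prime `p` in `P` -/
lemma set_bound {C1 κ : ℝ} (hQ1 : ∀ T : Finset ℕ, (∀ p ∈ T, p.Prime) →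
    (Sol κ T).Finite ∧ ((Sol κ T).ncard : ℝ) ≤ C1 ^ (T.card + 1)) (hC1 : 1 ≤ C1)
    {b : ℝ} {S : Finset ℕ} {P : Set ℕ} (hS : ∀ p ∈ S, p.Prime) (hP : ∀ p ∈ P, p.Prime ∧ p ∉ S)
    (hf : P.Finite ∧ (P.ncard : ℝ) ≤ b) :
    (⋃ p ∈ P, Sol κ (insert p S)).Finite ∧
      ((⋃ p ∈ P, Sol κ (insert p S)).ncard : ℝ) ≤ b * C1 ^ (S.card + 2) := by
  obtain ⟨hfin, hb⟩ := hf
  have h1 : (⋃ p ∈ P, Sol κ (insert p S)) = ⋃ p ∈ hfin.toFinset, Sol κ (insert p S) := by
    ext x
    simp only [Set.mem_iUnion, Set.Finite.mem_toFinset]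
  have h2 := union_card hfin.toFinset (fun p => Sol κ (insert p S))
    (fun _ => C1 ^ (S.card + 2)) (fun p hp => by
      rw [Set.Finite.mem_toFinset] at hp
      have hpr : ∀ q ∈ insert p S, q.Prime := by
        intro q hq
        rcases Finset.mem_insert.1 hq with rfl | hq
        · exact (hP _ hp).1
        · exact hS q hq
      have := hQ1 (insert p S) hpr
      rwa [Finset.card_insert_of_notMem (hP _ hp).2] at this)
  rw [h1]
  refine ⟨h2.1, h2.2.trans ?_⟩
  rw [Finset.sum_const, nsmul_eq_mul, ← Set.ncard_eq_toFinset_card _ hfin]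
  exact mul_le_mul_of_nonneg_right hb (by positivity)

theorem pf_LP2 (hLPC : T_LPC2) (hQR : T_QR) (hCOME : T_COME) : T_LP2 := by
  intro ε δ hε hδ
  set γ : ℝ := ε / 4 with hγdef
  have hγ : 0 < γ := by positivity
  obtain ⟨A, X₀, hA, hX₀, hfam⟩ := hLPC γ δ hγ hδ
  obtain ⟨C0, hC0, hQ0⟩ := hQR 0 one_pos
  obtain ⟨C1, hC1, hQ1⟩ := hQR (1 - δ) (by linarith)
  obtain ⟨Cc, hCc, hcom⟩ := hCOME C1 γ hC1 hγ
  set N₀ : ℕ := (⋃ t ∈ Pool.Agent.H38.RB.sq X₀, Sol 0 t.primeFactors).ncard with hN₀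
  set C : ℝ := N₀ + 5 * C1 ^ 2 * Cc * (2 / γ + 2) + 1 with hC
  have hC0' : 0 ≤ 5 * C1 ^ 2 * Cc * (2 / γ + 2) := by positivity
  refine ⟨2 * A, C, by linarith, by positivity, ?_⟩
  intro X Y Z hX hY hZ hZX
  have hX0 : 0 < X := by linarith
  have hXε : 1 ≤ X ^ ε := Real.one_le_rpow (by linarith) hε.le
  have hprime : ∀ t : ℕ, ∀ p ∈ t.primeFactors, p.Prime :=
    fun t p hp => Nat.prime_of_mem_primeFactors hp
  have hYZ : 1 ≤ Y * Z := one_le_mul_of_one_le_of_one_le hY hZ
  have hYZε : 1 ≤ Y * Z * X ^ ε := one_le_mul_of_one_le_of_one_le hYZ hXε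
  by_cases hXX : X < X₀
  · -- small `X`
    obtain ⟨hU, -⟩ := union_card (Pool.Agent.H38.RB.sq X₀) (fun t => Sol 0 t.primeFactors)
      (fun t => C0 ^ (t.primeFactors.card + 1)) fun t _ => hQ0 _ (hprime t)
    have hsub : {x | x ∈ Two X Y δ ∧ 2 * A * Real.log X ≤ Real.log (ht x) ∧
        Real.log (ht x) ≤ Z} ⊆ ⋃ t ∈ Pool.Agent.H38.RB.sq X₀, Sol 0 t.primeFactors := by
      rintro x ⟨⟨hx, hxX, -⟩, -⟩
      rw [Set.mem_iUnion₂]
      refine ⟨pd (pr x).primeFactors, mem_sq (hprime _) (hxX.trans hXX.le), ?_⟩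
      rw [pf_pd (hprime _)]
      exact mem_sol hx
    refine ⟨hU.subset hsub, ?_⟩
    have h1 : (({x | x ∈ Two X Y δ ∧ 2 * A * Real.log X ≤ Real.log (ht x) ∧
        Real.log (ht x) ≤ Z}.ncard : ℕ) : ℝ) ≤ N₀ := by
      exact_mod_cast Set.ncard_le_ncard hsub hU
    have h2 : (N₀ : ℝ) ≤ C := by
      rw [hC]
      linarith
    have h3 : C ≤ C * (Y * Z * X ^ ε) :=
      le_mul_of_one_le_right ((Nat.cast_nonneg _).trans h2) hYZε
    calc _ ≤ C * (Y * Z * X ^ ε) := h1.trans (h2.trans h3)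
      _ = _ := by ring
  · -- large `X`
    rw [not_lt] at hXX
    have hlog2 := Real.log_two_gt_d9
    have hlogX : Real.log 2 ≤ Real.log X := Real.log_le_log (by norm_num) hX
    set h₀ : ℝ := 2 * A * Real.log X with hh₀
    have hh1 : 1 ≤ h₀ := by nlinarith
    have hAh : A * Real.log X ≤ h₀ := by nlinarith
    set K : ℕ := ⌊2 * Real.log X⌋₊ + 1 with hK
    set N : ℕ := ⌊5 * Z⌋₊ with hN
    set J : Finset ℕ := (Finset.range K).filter (fun j : ℕ => 2 ^ j * h₀ ≤ X) with hJ
    set Y' : ℝ := min Y X with hY'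
    have hY'1 : 1 ≤ Y' := le_min hY (by linarith)
    set F : Finset (ℕ × ℕ × ℕ) := Pool.Agent.H38.RB.sq Y' ×ˢ (J ×ˢ Finset.Icc 1 N) with hF
    obtain ⟨hU, hUc⟩ := union_card F
      (fun i => ⋃ p ∈ fam2 X δ i.1.primeFactors i.2.2 (2 ^ i.2.1 * h₀),
        Sol (1 - δ) (insert p i.1.primeFactors))
      (fun i => X ^ γ * C1 ^ (i.1.primeFactors.card + 2)) (by
        rintro ⟨s, j, n⟩ hi
        rw [hF, Finset.mem_product, Finset.mem_product, hJ, Finset.mem_filter, Finset.mem_Icc] at hi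
        obtain ⟨hs, ⟨-, hj⟩, hn⟩ := hi
        unfold Pool.Agent.H38.RB.sq at hs
        rw [Finset.mem_filter, Finset.mem_Icc] at hs
        have hsX : (s : ℝ) ≤ X := ((Nat.le_floor_iff' (by have := hs.1.1; omega)).1 hs.1.2).trans
          (min_le_right _ _)
        have h2 : (1 : ℝ) ≤ 2 ^ j := one_le_pow₀ (by norm_num)
        refine set_bound hQ1 hC1 (hprime s) (fun p hp => ⟨hp.1, hp.2.1⟩)
          (hfam X (2 ^ j * h₀) s.primeFactors n hXX
            (hAh.trans (le_mul_of_one_le_left (by linarith) h2)) hj (hprime s) ?_ ?_)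
        · have h3 : pd s.primeFactors ≤ s :=
            Nat.le_of_dvd (by have := hs.1.1; omega) (Nat.prod_primeFactors_dvd s)
          have h4 : ((pd s.primeFactors : ℕ) : ℝ) ≤ s := by exact_mod_cast h3
          linarith
        · have := hn.1
          simp only at this
          omega)
    have hsub : {x | x ∈ Two X Y δ ∧ 2 * A * Real.log X ≤ Real.log (ht x) ∧
        Real.log (ht x) ≤ Z} ⊆
        ⋃ i ∈ F, ⋃ p ∈ fam2 X δ i.1.primeFactors i.2.2 (2 ^ i.2.1 * h₀),
          Sol (1 - δ) (insert p i.1.primeFactors) := by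
      rintro x ⟨hxT, hxh, hxZ⟩
      have hx : Adm x := hxT.1
      obtain ⟨a, b, c, p, S, hab, hac, hbc, hpp, hpS, hSp, hsY, hsX, hpX, hpb, hcS, hbS, haS,
        hsol⟩ := two_data hxT
      have hpf : (pd S).primeFactors = S := pf_pd hSp
      obtain ⟨j, hj1, hj2⟩ := exists_nat_pow_near (x := Real.log (ht x) / h₀) (y := 2)
        ((one_le_div (by linarith)).2 hxh) (by norm_num)
      rw [le_div_iff₀ (by linarith)] at hj1
      rw [div_lt_iff₀ (by linarith)] at hj2
      have hjX : (2 : ℝ) ^ j * h₀ ≤ X := by linarith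
      have hjK : j < K := by
        have h1 : (2 : ℝ) ^ j ≤ X := by
          have h0 : (0 : ℝ) ≤ 2 ^ j := by positivity
          nlinarith
        have h2 := Real.log_le_log (by positivity) h1
        rw [Real.log_pow] at h2
        have h3 : (0 : ℝ) ≤ j := Nat.cast_nonneg _
        have h4 : (j : ℝ) ≤ 2 * Real.log X := by nlinarith
        rw [hK]
        exact Nat.lt_succ_of_le (Nat.le_floor h4)
      have hn0 : (x b).natAbs.factorization p ≠ 0 := by
        rw [← Finsupp.mem_support_iff, Nat.support_factorization]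
        exact hpb
      have hnN : (x b).natAbs.factorization p ≤ N := by
        refine Nat.le_floor ?_
        have h1 : p ∈ (pr x).primeFactors := by
          rw [pf_perm hx hab hac hbc, Finset.mem_union, Finset.mem_union]
          exact Or.inl (Or.inr hpb)
        have h2 := exp_le hx h1
        have h3 : (x b).natAbs.factorization p ≤ (pr x).factorization p := by
          rw [fac_perm hx hab hac hbc]
          omega
        have h4 : (((x b).natAbs.factorization p : ℕ) : ℝ) ≤ (pr x).factorization p := by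
          exact_mod_cast h3
        linarith
      rw [Set.mem_iUnion₂]
      refine ⟨(pd S, j, (x b).natAbs.factorization p), ?_, ?_⟩
      · rw [hF, Finset.mem_product, Finset.mem_product, hJ, Finset.mem_filter, Finset.mem_Icc,
          Finset.mem_range]
        exact ⟨mem_sq hSp (le_min hsY hsX), ⟨hjK, hjX⟩, Nat.one_le_iff_ne_zero.2 hn0, hnN⟩
      · simp only
        rw [hpf, Set.mem_iUnion₂]
        refine ⟨p, ⟨hpp, hpS, hpX, x, a, b, c, hx, hab, hac, hbc, hcS, hbS, rfl, haS, hj1, ?_⟩,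
          hsol⟩
        rw [pow_succ] at hj2
        linarith
    refine ⟨hU.subset hsub, ?_⟩
    have h1 : (({x | x ∈ Two X Y δ ∧ 2 * A * Real.log X ≤ Real.log (ht x) ∧
        Real.log (ht x) ≤ Z}.ncard : ℕ) : ℝ) ≤
        ((⋃ i ∈ F, ⋃ p ∈ fam2 X δ i.1.primeFactors i.2.2 (2 ^ i.2.1 * h₀),
          Sol (1 - δ) (insert p i.1.primeFactors)).ncard : ℝ) := by
      exact_mod_cast Set.ncard_le_ncard hsub hU
    have hsum : ∑ i ∈ F, X ^ γ * C1 ^ (i.1.primeFactors.card + 2) =
        (J.card : ℝ) * N * X ^ γ * C1 ^ 2 *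
          ∑ s ∈ Pool.Agent.H38.RB.sq Y', C1 ^ s.primeFactors.card := by
      rw [hF, Finset.sum_product, Finset.mul_sum]
      refine Finset.sum_congr rfl fun s _ => ?_
      simp only [Finset.sum_const, Finset.card_product, Nat.card_Icc, nsmul_eq_mul,
        Nat.add_sub_cancel, Nat.cast_mul]
      ring
    have hJc : (J.card : ℝ) ≤ (2 / γ + 2) * X ^ γ := by
      have h2 : J.card ≤ K := (Finset.card_filter_le _ _).trans (Finset.card_range K).le
      have h3 : (J.card : ℝ) ≤ K := by exact_mod_cast h2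
      have h4 : (K : ℝ) ≤ 2 * Real.log X + 1 := by
        rw [hK]
        push_cast
        have := Nat.floor_le (show 0 ≤ 2 * Real.log X by linarith)
        linarith
      have h5 := Real.log_le_rpow_div hX0.le hγ
      have h6 : 1 ≤ X ^ γ := Real.one_le_rpow (by linarith) hγ.le
      have h7 : 2 * Real.log X ≤ 2 / γ * X ^ γ := by
        calc 2 * Real.log X ≤ 2 * (X ^ γ / γ) := by linarith
          _ = _ := by ring
      nlinarith
    have hNc : (N : ℝ) ≤ 5 * Z := Nat.floor_le (by linarith)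
    have hYc : Y' ^ (1 + γ) ≤ Y * X ^ γ := by
      rw [Real.rpow_add (by linarith), Real.rpow_one]
      exact mul_le_mul (min_le_left _ _) (Real.rpow_le_rpow (by linarith) (min_le_right _ _) hγ.le)
        (by positivity) (by linarith)
    have hXγ : X ^ γ * X ^ γ * X ^ γ ≤ X ^ ε := by
      rw [← Real.rpow_add hX0, ← Real.rpow_add hX0]
      exact Real.rpow_le_rpow_of_exponent_le (by linarith) (by rw [hγdef]; linarith)
    have hXγ0 : 0 < X ^ γ := Real.rpow_pos_of_pos hX0 _
    have hs2 := hcom Y' (by linarith)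
    calc _ ≤ _ := h1
      _ ≤ _ := hUc
      _ = _ := hsum
      _ ≤ ((2 / γ + 2) * X ^ γ) * (5 * Z) * X ^ γ * C1 ^ 2 * (Cc * (Y * X ^ γ)) := by
          have h8 : ∑ s ∈ Pool.Agent.H38.RB.sq Y', C1 ^ s.primeFactors.card ≤ Cc * (Y * X ^ γ) :=
            hs2.trans (mul_le_mul_of_nonneg_left hYc hCc.le)
          have h9 : (J.card : ℝ) * N ≤ ((2 / γ + 2) * X ^ γ) * (5 * Z) :=
            mul_le_mul hJc hNc (Nat.cast_nonneg _) (by positivity)
          refine mul_le_mul ?_ h8 (Finset.sum_nonneg fun _ _ => by positivity) (by positivity)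
          exact mul_le_mul_of_nonneg_right (mul_le_mul_of_nonneg_right h9 hXγ0.le) (by positivity)
      _ = 5 * C1 ^ 2 * Cc * (2 / γ + 2) * (Y * Z) * (X ^ γ * X ^ γ * X ^ γ) := by ring
      _ ≤ 5 * C1 ^ 2 * Cc * (2 / γ + 2) * (Y * Z) * X ^ ε :=
          mul_le_mul_of_nonneg_left hXγ (by positivity)
      _ ≤ C * (Y * Z) * X ^ ε := by
          refine mul_le_mul_of_nonneg_right (mul_le_mul_of_nonneg_right ?_ (by linarith))
            (by linarith)
          rw [hC]
          have : (0 : ℝ) ≤ N₀ := Nat.cast_nonneg _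
          linarith
      _ = _ := by ring

end Pool.Agent.H13.PS
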